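import Pool.Agent.H628R3.RO.F1

set_option autoImplicit false

/-!
# Relative to a random oracle every proof system is exponentially worse than some other one

For almost every oracle `A` and every language `L` that is hard for `coNP` relative to `A` (of
arbitrary complexity; in particular for the tautologies relative to `A`): for every proof system for
`L` there are a second one and a constant `k` such that infinitely many proofs `w` in the second
system prove statements all of whose proofs in the first one have length at least
`2 ^ (|w| / k)`. So there are no optimal proof systems for `coNP`-hard languages, in this strong
sense. This file states a theorem of the library `Pool.Agent.H628R3.RO` of the starting files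
(helper628 and others), which no result file stated before.
-/

namespace Pool.Agent.Results.MP_0532f7_lc.ExponentialGap

open Pool.Agent.H628R3.RO

/-- For almost every oracle `A`, every `coNP`-hard `L` relative to `A` and every proof system `P` for
`L` relative to `A` there are a proof system `Q` for `L` relative to `A` and a constant `k` such that
for arbitrarily long `w` all `P`-proofs `v` of the statement `Q w` satisfy `2 ^ |w| ≤ |v| ^ k`. -/
theorem result : ∀ᵐ A ∂randomOracle, ∀ L : Set (List Bool), CoNPHardRel A L →
    ∀ P, IsProofSystem A L P → ∃ Q, IsProofSystem A L Q ∧
      ∃ k : ℕ, ∀ N, ∃ w : List Bool, N ≤ w.length ∧ ∀ v, P v = Q w →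
        2 ^ w.length ≤ v.length ^ k :=
  Pool.Agent.H628R3.RO.optimal_main

end Pool.Agent.Results.MP_0532f7_lc.ExponentialGap
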