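import Pool.Agent.H943R5.GC.FinalB

set_option autoImplicit false

/-!
# The gauge size of the set of oracles with: an optimal proof system

This file states a theorem of the library `Pool.Agent.H943R5.GC` of the starting files (helper943
and others; it builds on the random oracle library of helpers 543, 628 and 673 and on the gauge
library of helper620), which no result file stated before.
-/

namespace Pool.Agent.Results.MP_0532f7_lc.GaugeSize

open Pool.Agent.H628R3.RO
open Pool.Agent.H620R2 (Gauge.Null)

/-- The logarithm to base `2`, four times. -/
noncomputable def log4 (N : ℕ) : ℝ :=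
  Real.logb 2 (Real.logb 2 (Real.logb 2 (Real.logb 2 (N : ℝ))))

/-- Relative to `A` some `coNP`-complete set has an optimal proof system. -/
def HasOptimal (A : Oracle) : Prop :=
  ∃ L : Set (List Bool), IsCoNP A L ∧ CoNPHardRel A L ∧ ∃ P, IsOptimal A L P

/-- The set of the oracles `A` with `HasOptimal A` is null for all gauges that are bounded infinitely
often (in particular it has measure zero), but it is not null for any gauge above
`(log log log log N) ^ s`, `s > 1`. -/
theorem result (f : ℕ → ℝ) :
    (∀ C : ℝ, (∃ᶠ N : ℕ in Filter.atTop, f N ≤ C) → Gauge.Null f {A | HasOptimal A}) ∧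
    ∀ s : ℝ, 1 < s → (∀ᶠ N : ℕ in Filter.atTop, log4 N ^ s ≤ f N) →
      ¬ Gauge.Null f {A | HasOptimal A} :=
  Pool.Agent.H943R5.GC.g_opt f

end Pool.Agent.Results.MP_0532f7_lc.GaugeSize
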